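import Pool.Agent.REV.StmtsG4
import Pool.Agent.BPH.Kit
import Pool.Agent.BPH.PpmB

set_option autoImplicit false

/-!
# REV, row ZQQ3: `QQ` of a zonal density, dimension at least 3
-/

open MeasureTheory Module Set Filter
open scoped RealInnerProductSpace Pointwise Topology ENNReal

namespace Pool.Agent.REV.H52

open Pool.Agent.BPH

variable {E : Type} [NormedAddCommGroup E] [InnerProductSpace ℝ E] [FiniteDimensional ℝ E]

theorem po_unit {u : E} (hu : ‖u‖ = 1) (e : E) : po u e = e - ⟪u, e⟫ • u := by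
  rw [po_formula, hu]
  simp

theorem norm_po {e u : E} (he : ‖e‖ = 1) (hu : ‖u‖ = 1) :
    ‖po u e‖ = Real.sqrt (1 - ⟪e, u⟫ ^ 2) := by
  have h : ‖po u e‖ ^ 2 = 1 - ⟪e, u⟫ ^ 2 := by
    rw [po_unit hu, @norm_sub_sq_real, norm_smul, inner_smul_right, he, hu, Real.norm_eq_abs,
      mul_one, sq_abs, real_inner_comm u e]
    ring
  rw [← h, Real.sqrt_sq (norm_nonneg _)]

theorem inner_po {u e x : E} (hu : ‖u‖ = 1) (hx : ⟪u, x⟫ = 0) :
    ⟪e, x⟫ = ‖po u e‖ * ⟪nrm (po u e), x⟫ := by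
  have h1 : ⟪po u e, x⟫ = ⟪e, x⟫ := by
    rw [po_unit hu, inner_sub_left, inner_smul_left, hx]
    simp
  rw [← h1, nrm, inner_smul_left]
  by_cases h0 : po u e = 0
  · rw [h0]; simp
  · have : ‖po u e‖ ≠ 0 := norm_ne_zero_iff.mpr h0
    simp only [conj_trivial]
    field_simp

omit [FiniteDimensional ℝ E] in
theorem inner_nrm_perp (u x : E) : ⟪u, nrm ((ℝ ∙ u)ᗮ.starProjection x)⟫ = 0 := by
  have h : (ℝ ∙ u)ᗮ.starProjection x ∈ (ℝ ∙ u)ᗮ := Submodule.starProjection_apply_mem _ _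
  rw [Submodule.mem_orthogonal_singleton_iff_inner_right] at h
  rw [nrm, inner_smul_right, h, mul_zero]

omit [FiniteDimensional ℝ E] in
theorem abs_inner_le_one {e' w : E} (he : ‖e'‖ = 1) (hw : ‖w‖ ≤ 1) : |⟪e', w⟫| ≤ 1 := by
  have h := abs_real_inner_le_norm e' w
  rw [he, one_mul] at h
  exact h.trans hw

theorem wt_add {n : ℕ} (hn : 3 ≤ n) {x : ℝ} (h0 : 0 ≤ x) (h1 : x ≤ 1) :
    (1 - x ^ 2) ^ (((n : ℝ) - 4) / 2) * (1 - x ^ 2) = (1 - x ^ 2) ^ (((n : ℝ) - 2) / 2) := by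
  have hx : (0 : ℝ) ≤ 1 - x ^ 2 := by nlinarith
  have hn' : (3 : ℝ) ≤ n := by exact_mod_cast hn
  have he : ((n : ℝ) - 2) / 2 = ((n : ℝ) - 4) / 2 + 1 := by ring
  rw [he, Real.rpow_add_one' hx (by linarith)]

/-- ZQQ3. -/
theorem zqq3 (mob : MobStmt) (zsm : ZsmStmt) (lwu : Lwu3Stmt) : Zqq3Stmt := by
  intro E _ _ _ _ _ e u φ i h4 hi he hu hpo hφ
  obtain ⟨C, hC⟩ := hφ.bdd
  have hC' : ∀ t, |φ t| ≤ C := fun t => by rw [abs_of_nonneg (hφ.nonneg t)]; exact hC t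
  set n := finrank ℝ E with hn
  set c := ‖po u e‖ with hc
  have hcs : c = Real.sqrt (1 - ⟪e, u⟫ ^ 2) := norm_po he hu
  have hc0 : 0 < c := norm_pos_iff.mpr hpo
  have hc1 : c ≤ 1 := by
    rw [hcs]
    refine Real.sqrt_le_one.mpr ?_
    nlinarith [sq_nonneg ⟪e, u⟫]
  set e' := nrm (po u e) with he'
  have hne' : ‖e'‖ = 1 := norm_nrm hpo
  have hue' : ⟪u, e'⟫ = 0 := inner_nrm_perp u e
  set ψ : ℝ → ℝ := fun s => φ (min |c * s| 1) with hψ
  have hψm : Measurable ψ := hφ.meas.comp (by fun_prop)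
  have hψb : BM ψ := ⟨hψm, C, fun s => hC' _⟩
  -- the density on the sphere of `u^⊥`
  have hzon : ∀ x : E, ⟪u, x⟫ = 0 → zon e φ x = ψ ⟪e', x⟫ := by
    intro x hx
    simp only [zon, hψ]
    rw [inner_po hu hx]
  have hQ : QQ i (zon e φ) u = QQ i (fun x => ψ ⟪e', x⟫) u := by
    unfold QQ mP
    refine integral_congr_ae (Eventually.of_forall fun x => ?_)
    simp only
    congr 1
    refine Finset.prod_congr rfl fun l _ => ?_
    exact hzon _ (inner_nrm_perp u (x l))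
  have hT : Tst (fun x : E => ψ ⟪e', x⟫) :=
    ⟨hψm.comp (by fun_prop), C, fun x => hC' _⟩
  have h2 : 2 ≤ finrank ℝ E := by omega
  have h3 : 3 ≤ finrank ℝ E := by omega
  obtain ⟨-, hl⟩ := lwu u e' (by omega) hu hne' hue'
  -- the two eigenvalues
  have ha : mS (ℝ ∙ u)ᗮ (fun x : E => ⟪e', x⟫ ^ 2 * ψ ⟪e', x⟫) = kap n * RB n φ c := by
    have h1 := hl (fun s => (min |s| 1) ^ 2 * ψ s) ⟨by fun_prop, C, fun s => by
      rw [abs_mul]
      have h5 : |(min |s| 1) ^ 2| ≤ 1 := by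
        rw [abs_of_nonneg (sq_nonneg _)]
        have h6 : 0 ≤ min |s| 1 := le_min (abs_nonneg _) zero_le_one
        have h7 : min |s| 1 ≤ 1 := min_le_right _ _
        nlinarith
      calc |(min |s| 1) ^ 2| * |ψ s| ≤ 1 * C :=
            mul_le_mul h5 (hC' _) (abs_nonneg _) zero_le_one
        _ = C := one_mul C⟩
    have h8 : mS (ℝ ∙ u)ᗮ (fun x : E => ⟪e', x⟫ ^ 2 * ψ ⟪e', x⟫) =
        mS (ℝ ∙ u)ᗮ (fun x : E => (min (|(|⟪e', x⟫|)|) 1) ^ 2 * ψ |⟪e', x⟫|) := by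
      unfold mS
      refine integral_congr_ae (Eventually.of_forall fun x => ?_)
      simp only
      have h9 := abs_inner_le_one hne' (norm_nrm_le ((ℝ ∙ u)ᗮ.starProjection x))
      rw [abs_abs, min_eq_left h9, sq_abs]
      congr 1
      simp only [hψ, abs_mul, abs_abs]
    rw [h8, h1]
    congr 1
    unfold RB
    refine intervalIntegral.integral_congr fun x hx => ?_
    rw [uIcc_of_le zero_le_one] at hx
    simp only [hψ]
    have h10 : |x| = x := abs_of_nonneg hx.1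
    have h11 : min |x| 1 = x := by rw [h10]; exact min_eq_left hx.2
    have h12 : min |c * x| 1 = x * c := by
      rw [abs_of_nonneg (mul_nonneg hc0.le hx.1), min_eq_left (by nlinarith [hx.1, hx.2]), mul_comm]
    rw [h11, h12]
    ring
  have hb : mS (ℝ ∙ u)ᗮ (fun x : E => (1 - ⟪e', x⟫ ^ 2) * ψ ⟪e', x⟫) = kap n * RA n φ c := by
    have h1 := hl (fun s => (1 - (min |s| 1) ^ 2) * ψ s) ⟨by fun_prop, C, fun s => by
      rw [abs_mul]
      have h5 : |1 - (min |s| 1) ^ 2| ≤ 1 := by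
        have h6 : 0 ≤ min |s| 1 := le_min (abs_nonneg _) zero_le_one
        have h7 : min |s| 1 ≤ 1 := min_le_right _ _
        rw [abs_of_nonneg (by nlinarith)]
        nlinarith
      calc |1 - (min |s| 1) ^ 2| * |ψ s| ≤ 1 * C :=
            mul_le_mul h5 (hC' _) (abs_nonneg _) zero_le_one
        _ = C := one_mul C⟩
    have h8 : mS (ℝ ∙ u)ᗮ (fun x : E => (1 - ⟪e', x⟫ ^ 2) * ψ ⟪e', x⟫) =
        mS (ℝ ∙ u)ᗮ (fun x : E => (1 - (min (|(|⟪e', x⟫|)|) 1) ^ 2) * ψ |⟪e', x⟫|) := by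
      unfold mS
      refine integral_congr_ae (Eventually.of_forall fun x => ?_)
      simp only
      have h9 := abs_inner_le_one hne' (norm_nrm_le ((ℝ ∙ u)ᗮ.starProjection x))
      rw [abs_abs, min_eq_left h9, sq_abs]
      congr 1
      simp only [hψ, abs_mul, abs_abs]
    rw [h8, h1]
    congr 1
    unfold RA
    refine intervalIntegral.integral_congr fun x hx => ?_
    rw [uIcc_of_le zero_le_one] at hx
    simp only [hψ]
    have h10 : |x| = x := abs_of_nonneg hx.1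
    have h11 : min |x| 1 = x := by rw [h10]; exact min_eq_left hx.2
    have h12 : min |c * x| 1 = x * c := by
      rw [abs_of_nonneg (mul_nonneg hc0.le hx.1), min_eq_left (by nlinarith [hx.1, hx.2]), mul_comm]
    rw [h11, h12, ← wt_add (by omega : 3 ≤ n) hx.1 hx.2]
    ring
  have hsm := zsm u e' h3 hu hne' hue' ψ hψb
  rw [ha, hb] at hsm
  have hmob := mob (fun x : E => ψ ⟪e', x⟫) u e' _ _ h2 hu hne' hue' hT hsm i
  rw [hQ, hmob, ← hn]
  unfold TT C1 C2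
  rw [← hcs]
  obtain ⟨k, rfl⟩ : ∃ k, i = k + 1 := ⟨i - 1, by omega⟩
  simp only [Nat.add_sub_cancel]
  have hn2 : (n : ℝ) - 2 ≠ 0 := by
    have : (3 : ℝ) ≤ n := by exact_mod_cast (by omega : 3 ≤ n)
    linarith
  rw [div_pow, mul_pow, div_pow, mul_pow]
  field_simp
  ring

end Pool.Agent.REV.H52
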